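import Pool.Agent.L0h86.JS.Stm
import Pool.Agent.L0h92.JR.BOXR

/-!
# Project JS, module BOXG: the joint law in a box, all classes (after `Pool/Agent/L0h92/JR/BOXR`)
-/

set_option autoImplicit false
set_option linter.all false
set_option maxHeartbeats 4000000

open scoped Classical

namespace Pool.Agent.L0h84.JS

open Finset
open Pool.Agent.Y703.CQ (nr sg)
open Pool.Agent.N973.ND (uu nr_rec nr_self)
open Pool.Agent.N916.GB (Po sy Vt Gd Gv ps sx pt eta HB Nd)
open Pool.Agent.N958.GB (Lb lb LN uu_eq mem_Vt Vt_sub Gd_iff nd_iff rr rr_inj rr_im NR sgm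
  sy_ne sy_two two_tuples HB_sub ud wd sum_uu z2 rec_NR)
open Pool.Agent.L0h86.JR
open Pool.Agent.L0h86.JS
open Pool.Agent.L0h92.JR (TQ LbJ lbj UW rw' wR uR nR' uR_inr HL_tuple Ws Vt_union DD_eq card_LbJ
  ndR_iff)

/-- the twist of the split case -/
noncomputable def tw (v₀ q p : ℕ) : ZMod 2 :=
  (if q = v₀ ∧ p ≠ 2 then nr p 2 else 0) + (if p = v₀ ∧ q ≠ 2 then nr q 2 else 0)

theorem tw_comm (v₀ q p : ℕ) : tw v₀ q p = tw v₀ p q := by
  unfold tw
  rw [add_comm]

theorem tw_LL {v₀ q p : ℕ} (hq : q ≠ v₀) (hp : p ≠ v₀) : tw v₀ q p = 0 := by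
  unfold tw
  rw [if_neg fun h => hq h.1, if_neg fun h => hp h.1, add_zero]

theorem tw_SL {v₀ v p : ℕ} (hp : p ≠ v₀) (hp2 : p ≠ 2) :
    tw v₀ v p = if v = v₀ then nr p 2 else 0 := by
  unfold tw
  rw [if_neg (c := p = v₀ ∧ v ≠ 2) fun h => hp h.1, add_zero]
  by_cases hv : v = v₀
  · rw [if_pos ⟨hv, hp2⟩, if_pos hv]
  · rw [if_neg fun h => hv h.1, if_neg hv]

theorem sy7_eq (v₀ q p : ℕ) : sy7 v₀ q p = sy 1 0 q p + tw v₀ q p := by
  unfold sy7 tw
  rw [add_assoc]

/-- the good matrices from a parametrization -/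
theorem GdM_iff {V : Type} [Fintype V] {ρ : V → ℕ} (hρ : Function.Injective ρ) {S : Finset ℕ}
    (hS : univ.image ρ = S) (M : ℕ → ℕ → ZMod 2) :
    GdM S M ↔ Gv fun i j => M (ρ i) (ρ j) := by
  have h1 : ∀ i, ρ i ∈ S := fun i => by
    rw [← hS]
    exact mem_image_of_mem _ (mem_univ _)
  have h2 : ∀ x ∈ S, ∃ i, ρ i = x := by
    intro x hx
    rw [← hS, mem_image] at hx
    obtain ⟨i, -, hi⟩ := hx
    exact ⟨i, hi⟩
  have h3 : ∀ f : ℕ → ZMod 2, ∑ p ∈ S, f p = ∑ i, f (ρ i) := by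
    intro f
    rw [← hS, sum_image fun i _ j _ h => hρ h]
  unfold GdM Gv
  constructor
  · intro h x hx i j
    have h4 : ∀ i, Function.extend ρ x 0 (ρ i) = x i := fun i => hρ.extend_apply x 0 i
    have h5 := h (Function.extend ρ x 0) (by
      intro q hq
      obtain ⟨i, rfl⟩ := h2 q hq
      rw [h3]
      simp only [h4]
      exact hx i) (ρ i) (h1 i) (ρ j) (h1 j)
    rwa [h4, h4] at h5
  · intro h x hx p hp q hq
    obtain ⟨i, rfl⟩ := h2 p hp
    obtain ⟨j, rfl⟩ := h2 q hq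
    refine h (fun i => x (ρ i)) (fun i => ?_) i j
    have h4 := hx (ρ i) (h1 i)
    rwa [h3] at h4

section
variable {t n : ℕ} {s : Fin t → Sr} {f : Fin t → Bool} {ι : Type} [Fintype ι] [LinearOrder ι]
  {v₀ : ℕ} {W : Fin t → Finset ℕ} {τ : ι → ℕ} {C : ι → Finset ℕ}

/-- the matrix -/
noncomputable def nG (s : Fin t → Sr) (f : Fin t → Bool) (v₀ : ℕ) (W : Fin t → Finset ℕ)
    (p : ι → ℕ) (l : Fin t) : UW s W l ⊕ ι → UW s W l ⊕ ι → ZMod 2 := fun i j =>
  nR' s W p l i j + if f l = true then tw v₀ (rw' s W p l i) (rw' s W p l j) else 0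

theorem nG_LL {p : ι → ℕ} (h : TQ W τ p) (hv : ∀ l, v₀ ∈ W l) (l : Fin t) (k j : ι) :
    nG s f v₀ W p l (Sum.inr k) (Sum.inr j) = nR' s W p l (Sum.inr k) (Sum.inr j) := by
  unfold nG
  have h1 : ∀ k, p k ≠ v₀ := fun k hk => h.nm l k (hk ▸ hv l)
  have h2 : tw v₀ (rw' s W p l (Sum.inr k)) (rw' s W p l (Sum.inr j)) = 0 :=
    tw_LL (h1 k) (h1 j)
  rw [h2]
  split_ifs <;> exact add_zero _

theorem nG_SL {p : ι → ℕ} (h : TQ W τ p) (hv : ∀ l, v₀ ∈ W l) (l : Fin t) (v : UW s W l) (j : ι) :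
    nG s f v₀ W p l (Sum.inl v) (Sum.inr j) = nR' s W p l (Sum.inl v) (Sum.inr j) +
      if f l = true then (if (v : ℕ) = v₀ then nr (p j) 2 else 0) else 0 := by
  unfold nG
  have h1 : ∀ k, p k ≠ v₀ := fun k hk => h.nm l k (hk ▸ hv l)
  have h2 : tw v₀ (rw' s W p l (Sum.inl v)) (rw' s W p l (Sum.inr j)) =
      if (v : ℕ) = v₀ then nr (p j) 2 else 0 := tw_SL (h1 j) (h.po j).2
  rw [h2]

theorem nG_LS {p : ι → ℕ} (h : TQ W τ p) (hv : ∀ l, v₀ ∈ W l) (l : Fin t) (v : UW s W l) (j : ι) :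
    nG s f v₀ W p l (Sum.inr j) (Sum.inl v) = nR' s W p l (Sum.inr j) (Sum.inl v) +
      if f l = true then (if (v : ℕ) = v₀ then nr (p j) 2 else 0) else 0 := by
  unfold nG
  have h1 : ∀ k, p k ≠ v₀ := fun k hk => h.nm l k (hk ▸ hv l)
  have h2 : tw v₀ (rw' s W p l (Sum.inr j)) (rw' s W p l (Sum.inl v)) =
      if (v : ℕ) = v₀ then nr (p j) 2 else 0 := (tw_comm _ _ _).trans (tw_SL (h1 j) (h.po j).2)
  rw [h2]

theorem HL_G (hfl : ∀ l, f l = true → (s l).t = true ∧ (s l).r = 1 ∧ (s l).s = 0)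
    (hv : ∀ l, v₀ ∈ W l) (hv2 : v₀ ≠ 2) {p : ι → ℕ} (h : TQ W τ p)
    (hH : HL (U := UW s W) (J := ι) (wR s W p) (uR s W p) (nR' s W p)) :
    HL (U := UW s W) (J := ι) (wR s W p) (uR s W p) (nG s f v₀ W p) := by
  refine ⟨hH.w1, hH.u1, fun l i j hij => ?_, hH.w0, fun l b s' hbs => ?_, hH.uJ,
    fun l l' k j hkj => ?_⟩
  · have base := hH.rel l i j hij
    unfold nG
    by_cases hf : f l = true
    · have hw : ∀ i, wR s W p l i = 1 := by
        intro i
        show wd (s l).r (rw' s W p l) i = 1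
        unfold wd
        rw [(hfl l hf).2.1]
        split_ifs <;> rfl
      rw [if_pos hf, if_pos hf, tw_comm v₀ (rw' s W p l j)]
      rw [hw, hw] at base ⊢
      rw [← base]
      have : ∀ x y z : ZMod 2, 1 * (x + z) + 1 * (y + z) = 1 * x + 1 * y := by decide
      exact this _ _ _
    · rw [if_neg hf, if_neg hf, add_zero, add_zero]
      exact base
  · by_cases hf : f l = true
    · have ht := (hfl l hf).1
      let i2 : UW s W l := ⟨2, mem_Vt.2 (Or.inl ⟨ht, rfl⟩)⟩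
      let i0 : UW s W l := ⟨v₀, mem_Vt.2 (Or.inr (hv l))⟩
      have hi : i0 ≠ i2 := fun hh => hv2 (congrArg Subtype.val hh)
      obtain ⟨k, hk⟩ := hH.nd l (fun v => b v + if v = i2 then b i0 else 0) s' (by
        rcases hbs with ⟨v, hv'⟩ | hh
        · left
          by_contra hcon
          push Not at hcon
          have c1 : ∀ v, v ≠ i2 → b v = 0 := by
            intro v hvn
            have := hcon v
            rwa [if_neg hvn, add_zero] at this
          have c2 := hcon i2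
          rw [if_pos rfl, c1 i0 hi, add_zero] at c2
          by_cases hvi : v = i2
          · exact hv' (hvi ▸ c2)
          · exact hv' (c1 v hvi)
        · exact Or.inr hh)
      refine ⟨k, ?_⟩
      have e1 : ∑ v, b v * nG s f v₀ W p l (Sum.inl v) (Sum.inr k) =
          ∑ v, b v * nR' s W p l (Sum.inl v) (Sum.inr k) + b i0 * nr (p k) 2 := by
        have e2 : ∀ v : UW s W l, b v * nG s f v₀ W p l (Sum.inl v) (Sum.inr k) =
            b v * nR' s W p l (Sum.inl v) (Sum.inr k) +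
              if v = i0 then b v * nr (p k) 2 else 0 := by
          intro v
          rw [nG_SL h hv, if_pos hf, mul_add]
          congr 1
          by_cases hvv : v = i0
          · rw [if_pos hvv, if_pos (congrArg Subtype.val hvv)]
          · rw [if_neg hvv, if_neg fun hh => hvv (Subtype.ext hh), mul_zero]
        rw [sum_congr rfl fun v _ => e2 v, sum_add_distrib, sum_ite_eq' univ i0,
          if_pos (mem_univ _)]
      have e3 : ∑ v, (b v + if v = i2 then b i0 else 0) * nR' s W p l (Sum.inl v) (Sum.inr k) =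
          ∑ v, b v * nR' s W p l (Sum.inl v) (Sum.inr k) + b i0 * nr (p k) 2 := by
        have e4 : ∀ v : UW s W l, (b v + if v = i2 then b i0 else 0) *
            nR' s W p l (Sum.inl v) (Sum.inr k) =
            b v * nR' s W p l (Sum.inl v) (Sum.inr k) +
              if v = i2 then b i0 * nR' s W p l (Sum.inl v) (Sum.inr k) else 0 := by
          intro v
          rw [add_mul, ite_mul, zero_mul]
        rw [sum_congr rfl fun v _ => e4 v, sum_add_distrib, sum_ite_eq' univ i2,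
          if_pos (mem_univ _)]
        congr 2
        show sy (s l).r (s l).s 2 (p k) = nr (p k) 2
        exact sy_ne _ _ (h.po k).2
      rw [e1, ← e3]
      exact hk
    · obtain ⟨k, hk⟩ := hH.nd l b s' hbs
      refine ⟨k, ?_⟩
      have e1 : ∑ v, b v * nG s f v₀ W p l (Sum.inl v) (Sum.inr k) =
          ∑ v, b v * nR' s W p l (Sum.inl v) (Sum.inr k) := by
        refine sum_congr rfl fun v _ => ?_
        rw [nG_SL h hv, if_neg hf, add_zero]
      rw [e1]
      exact hk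
  · rw [nG_LL h hv, nG_LL h hv]
    exact hH.NJ l l' k j hkj

end

section
variable {t n : ℕ} {s : Fin t → Sr} {f : Fin t → Bool} {ι : Type} [Fintype ι] [LinearOrder ι]
  {v₀ : ℕ} {S₀ : Finset ℕ} {τ : ι → ℕ} {C : ι → Finset ℕ}

theorem DD_G (hfl : ∀ l, f l = true → (s l).t = true ∧ (s l).r = 1 ∧ (s l).s = 0)
    (hv : v₀ ∈ S₀) (hS₀ : ∀ v ∈ S₀, Po v) (hW : ∀ l, ∀ v ∈ (s l).W, Po v)
    (hdis : ∀ l, Disjoint S₀ (s l).W) {p : ι → ℕ}
    (h : TQ (Ws s S₀) τ p) (l : Fin t) (k : ι) :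
    DD (nG s f v₀ (Ws s S₀) p) l k = ∑ v ∈ S₀, nr v (p k) + dgG (f l) (s l) (p k) := by
  have hv' : ∀ l, v₀ ∈ Ws s S₀ l := fun l => mem_union_left _ hv
  have h1 := DD_eq (s := s) hS₀ hdis (p := p) l k
  have h2 : DD (nG s f v₀ (Ws s S₀) p) l k = DD (nR' s (Ws s S₀) p) l k +
      if f l = true then nr (p k) 2 else 0 := by
    unfold DD
    by_cases hf : f l = true
    · rw [if_pos hf]
      let i0 : UW s (Ws s S₀) l := ⟨v₀, mem_Vt.2 (Or.inr (hv' l))⟩
      have e2 : ∀ v : UW s (Ws s S₀) l, nG s f v₀ (Ws s S₀) p l (Sum.inr k) (Sum.inl v) =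
          nR' s (Ws s S₀) p l (Sum.inr k) (Sum.inl v) +
            if v = i0 then nr (p k) 2 else 0 := by
        intro v
        rw [nG_LS h hv', if_pos hf]
        congr 1
        by_cases hvv : v = i0
        · rw [if_pos hvv, if_pos (congrArg Subtype.val hvv)]
        · rw [if_neg hvv, if_neg fun hh => hvv (Subtype.ext hh)]
      rw [sum_congr rfl fun v _ => e2 v, sum_add_distrib, sum_ite_eq' univ i0,
        if_pos (mem_univ _)]
    · rw [if_neg hf, add_zero]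
      refine sum_congr rfl fun v _ => ?_
      rw [nG_LS h hv', if_neg hf, add_zero]
  rw [h2, h1]
  unfold dgG
  by_cases hf : f l = true
  · rw [if_pos hf, if_pos hf, add_assoc]
    congr 1
    obtain ⟨ht, hr, hs⟩ := hfl l hf
    have h2W : 2 ∉ (s l).W := fun hh => (hW l 2 hh).2 rfl
    unfold dgR
    rw [ht, hr, hs]
    show ∑ v ∈ insert 2 (s l).W, sy 1 0 (p k) v + nr (p k) 2 = _
    rw [sum_insert h2W, sy_two,
      sum_congr rfl fun v hv => sy_ne (q := p k) 1 0 (hW l v hv).2]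
    have : ∀ x y z : ZMod 2, 1 * x + 0 * y + z + x = z := by decide
    exact this _ _ _
  · rw [if_neg hf, if_neg hf, add_zero]

theorem HT_G (hfl : ∀ l, f l = true → (s l).t = true ∧ (s l).r = 1 ∧ (s l).s = 0)
    (hv : v₀ ∈ S₀) (hW : ∀ l, ∀ v ∈ (s l).W, Po v)
    (x : Fin t → Fin n → ZMod 2) (JR : Fin n → Finset ι) {M V : ℕ}
    (hS₀ : ∀ v ∈ S₀, Po v) (hdis : ∀ l, Disjoint S₀ (s l).W)
    (h3 : M * ∑ l, ((S₀ ∪ (s l).W).card + 1) + V ≤ (univ.filter fun i => τ i = 3).card)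
    (hJ : ∀ r, M * ∑ l, ((S₀ ∪ (s l).W).card + 1) + V ≤ (JR r).card)
    (hsep : ∀ l l', l ≠ l' → ∃ r, x l r ≠ x l' r)
    {p : ι → ℕ} (h : TQ (Ws s S₀) τ p)
    (hty : ∀ r, ∀ i ∈ JR r, τ i ≠ 3 ∧ ∀ l, dgG (f l) (s l) (p i) = x l r) :
    HT (U := UW s (Ws s S₀)) (J := ι) (uR s (Ws s S₀) p) (nG s f v₀ (Ws s S₀) p) x JR
      (M * ∑ l, Fintype.card (UW s (Ws s S₀) l) + V) := by
  have hc : M * ∑ l, Fintype.card (UW s (Ws s S₀) l) + V ≤
      M * ∑ l, ((S₀ ∪ (s l).W).card + 1) + V := by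
    refine Nat.add_le_add_right (Nat.mul_le_mul_left _ (sum_le_sum fun l _ => ?_)) _
    rw [Fintype.card_coe]
    exact (card_le_card (Vt_sub (s l).t _)).trans (card_insert_le _ _)
  refine ⟨fun l => ?_, fun r => hc.trans (hJ r), fun r k hk l l' => ⟨?_, ?_⟩, hsep⟩
  · have d2 : (univ.filter fun k : ι => uR s (Ws s S₀) p l (Sum.inr k) = 1) =
        univ.filter fun i => τ i = 3 := by
      refine filter_congr fun k _ => ?_
      rw [uR_inr h]
      by_cases hh : τ k = 3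
      · rw [if_pos hh]
        exact ⟨fun _ => hh, fun _ => rfl⟩
      · rw [if_neg hh]
        exact ⟨fun h' => absurd h' (by decide), fun h' => absurd h' hh⟩
    rw [d2]
    exact hc.trans h3
  · rw [uR_inr h, if_neg (hty r k hk).1]
  · rw [DD_G hfl hv hS₀ hW hdis h, DD_G hfl hv hS₀ hW hdis h, (hty r k hk).2 l,
      (hty r k hk).2 l']
    have : ∀ a b c : ZMod 2, a + b + (a + c) = b + c := by decide
    exact this _ _ _

/-- the pattern of a tuple -/
theorem patG_iff (hEQ7 : S_EQ7)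
    (hfl : ∀ l, f l = true → (s l).t = true ∧ (s l).r = 1 ∧ (s l).s = 0)
    (hv : v₀ ∈ S₀) (hS₀ : ∀ v ∈ S₀, Po v) (hW : ∀ l, ∀ v ∈ (s l).W, Po v)
    {p : ι → ℕ} (h : TQ (Ws s S₀) τ p)
    (hsum : ∀ l, f l = true → ∑ v ∈ S₀ ∪ (s l).W, nr v 2 + ∑ i, nr (p i) 2 = 0)
    (β : Fin t → Bool) :
    PatG s f β (S₀ ∪ univ.image p) ↔
      ∀ l, (Gv (nG s f v₀ (Ws s S₀) p l) ↔ β l = true) := by
  unfold PatG
  refine forall_congr' fun l => ?_
  have h1 : S₀ ∪ univ.image p ∪ (s l).W = (S₀ ∪ (s l).W) ∪ univ.image p := by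
    rw [union_right_comm]
  unfold GdG
  by_cases hf : f l = true
  · rw [if_pos hf, h1]
    obtain ⟨ht, hr, hs⟩ := hfl l hf
    have hdisj : Disjoint (S₀ ∪ (s l).W) (univ.image p) := by
      rw [Finset.disjoint_left]
      intro x hx hx2
      obtain ⟨i, -, rfl⟩ := mem_image.1 hx2
      exact h.nm l i hx
    rw [hEQ7 _ v₀ (by
      intro q hq
      rcases mem_union.1 hq with hq | hq
      · rcases mem_union.1 hq with hq | hq
        · exact hS₀ q hq
        · exact hW l q hq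
      · obtain ⟨i, -, rfl⟩ := mem_image.1 hq
        exact h.po i) (mem_union_left _ (mem_union_left _ hv)) (by
      rw [sum_union hdisj, sum_image fun i _ j _ hij => h.inj hij]
      exact hsum l hf)]
    have h2 : univ.image (rr (s l).t (Ws s S₀ l) p) = insert 2 (S₀ ∪ (s l).W ∪ univ.image p) := by
      rw [rr_im (s l).t]
      unfold Vt
      rw [if_pos ht]
    rw [GdM_iff (rr_inj (s l).t h.inj (h.nm l) fun i => (h.po i).2) h2]
    have h3 : (fun i j => sy7 v₀ (rr (s l).t (Ws s S₀ l) p i) (rr (s l).t (Ws s S₀ l) p j)) =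
        nG s f v₀ (Ws s S₀) p l := by
      funext i j
      rw [sy7_eq]
      unfold nG
      rw [if_pos hf]
      show _ = sy (s l).r (s l).s _ _ + _
      rw [hr, hs]
    rw [h3]
  · rw [if_neg hf]
    unfold GdR
    rw [h1, Gd_iff (s l).t (s l).r (s l).s
      (rr_inj (s l).t h.inj (h.nm l) fun i => (h.po i).2) (rr_im (s l).t)]
    have h3 : (fun i j => sy (s l).r (s l).s (rr (s l).t (Ws s S₀ l) p i)
        (rr (s l).t (Ws s S₀ l) p j)) = nG s f v₀ (Ws s S₀) p l := by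
      funext i j
      unfold nG
      rw [if_neg hf, add_zero]
      rfl
    rw [h3]

/-- **two tuples with the same labels** -/
theorem two_G (hv : v₀ ∈ S₀) {p p₀ : ι → ℕ} (h : TQ (Ws s S₀) τ p) (h₀ : TQ (Ws s S₀) τ p₀)
    (l : Fin t) (hl : ∀ i, lb (Ws s S₀ l) (p i) = lb (Ws s S₀ l) (p₀ i)) :
    nG s f v₀ (Ws s S₀) p l = pt (nG s f v₀ (Ws s S₀) p₀ l) (sx (sgm p + sgm p₀)) := by
  have a0 := two_tuples (S₀ := Ws s S₀ l) (s l).t (s l).r (s l).s h.inj h₀.inj h.po h₀.po h.ty h₀.ty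
    hl
  have hv' : ∀ l, v₀ ∈ Ws s S₀ l := fun l => mem_union_left _ hv
  have h2 : ∀ k, nr (p k) 2 = nr (p₀ k) 2 := fun k =>
    congrFun (congrArg (fun t => t.1) (hl k)) ⟨2, mem_insert_self _ _⟩
  funext i j
  have a1 : nR' s (Ws s S₀) p l i j = pt (nR' s (Ws s S₀) p₀ l) (sx (sgm p + sgm p₀)) i j :=
    congrFun (congrFun a0 i) j
  rcases i with u | k <;> rcases j with v | k'
  · show nG s f v₀ (Ws s S₀) p l (Sum.inl u) (Sum.inl v) =
      nG s f v₀ (Ws s S₀) p₀ l (Sum.inl u) (Sum.inl v)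
    rfl
  · show nG s f v₀ (Ws s S₀) p l (Sum.inl u) (Sum.inr k') =
      nG s f v₀ (Ws s S₀) p₀ l (Sum.inl u) (Sum.inr k')
    rw [nG_SL h hv', nG_SL h₀ hv', h2 k']
    congr 1
  · show nG s f v₀ (Ws s S₀) p l (Sum.inr k) (Sum.inl v) =
      nG s f v₀ (Ws s S₀) p₀ l (Sum.inr k) (Sum.inl v)
    rw [nG_LS h hv', nG_LS h₀ hv', h2 k]
    congr 1
  · show nG s f v₀ (Ws s S₀) p l (Sum.inr k) (Sum.inr k') =
      nG s f v₀ (Ws s S₀) p₀ l (Sum.inr k) (Sum.inr k') + sx (sgm p + sgm p₀) k k'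
    rw [nG_LL h hv', nG_LL h₀ hv']
    exact a1

/-- the part with given labels -/
theorem labG (hEQ7 : S_EQ7)
    (hfl : ∀ l, f l = true → (s l).t = true ∧ (s l).r = 1 ∧ (s l).s = 0)
    (hv : v₀ ∈ S₀) (hS₀ : ∀ v ∈ S₀, Po v) (hW : ∀ l, ∀ v ∈ (s l).W, Po v)
    {β : ι → LbJ (Ws s S₀)} {ε : ℝ} {X : ι → ℕ} {κ : ℝ} {pat : Fin t → Bool}
    (hκ : 0 ≤ κ) (hCX : ∀ i, (C i).card ≤ X i) (hHB : HB C X κ)
    (hT : ∀ p ∈ Fintype.piFinset C, TQ (Ws s S₀) τ p)
    (hsum : ∀ p ∈ Fintype.piFinset C, ∀ l, f l = true →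
      ∑ v ∈ S₀ ∪ (s l).W, nr v 2 + ∑ i, nr (p i) 2 = 0)
    (hL : ∀ p ∈ Fintype.piFinset C, ∀ i, lbj (Ws s S₀) (p i) = β i)
    (hLA : ∀ p ∈ Fintype.piFinset C,
      |((univ.filter fun σ : ps ι → ZMod 2 => ∀ l,
        (Gv (pt (nG s f v₀ (Ws s S₀) p l) (sx σ)) ↔
        pat l = true)).card : ℝ) / 2 ^ (ps ι).card - amR pat| ≤ ε) :
    |(((Fintype.piFinset C).filter fun p => PatG s f pat (S₀ ∪ univ.image p)).card : ℝ) -
        amR pat * ((Fintype.piFinset C).card : ℝ)| ≤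
      ε * ((Fintype.piFinset C).card : ℝ) + 2 ^ (ps ι).card * (κ * ∏ j, (X j : ℝ)) := by
  set R : ℝ := 2 ^ (ps ι).card * (κ * ∏ j, (X j : ℝ)) with hR
  have hR0 : 0 ≤ R := mul_nonneg (by positivity)
    (mul_nonneg hκ (Finset.prod_nonneg fun j _ => by positivity))
  by_cases hemp : Fintype.piFinset C = ∅
  · rw [hemp]
    simpa using hR0
  obtain ⟨p₀, hp₀⟩ := Finset.nonempty_iff_ne_empty.2 hemp
  have h2 := hLA p₀ hp₀
  set Q : (ps ι → ZMod 2) → Prop := fun σ =>
    ∀ l, (Gv (pt (nG s f v₀ (Ws s S₀) p₀ l) (sx (σ + sgm p₀))) ↔ pat l = true) with hQ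
  have h3 := Pool.Agent.N19.GB.t_EQ ι C X κ hκ hCX hHB Q
  have h4 : ((Fintype.piFinset C).filter fun p => PatG s f pat (S₀ ∪ univ.image p)) =
      ((Fintype.piFinset C).filter fun p => Q fun e => nr (p e.1.1) (p e.1.2)) := by
    refine Finset.filter_congr fun p hp => ?_
    rw [patG_iff hEQ7 hfl hv hS₀ hW (hT p hp) (hsum p hp)]
    refine forall_congr' fun l => ?_
    have a0 := two_G (f := f) hv (hT p hp) (hT p₀ hp₀) l fun i => by
        have a1 := congrFun (hL p hp i) l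
        have a2 := congrFun (hL p₀ hp₀ i) l
        exact a1.trans a2.symm
    show (Gv (nG s f v₀ (Ws s S₀) p l) ↔ pat l = true) ↔
      (Gv (pt (nG s f v₀ (Ws s S₀) p₀ l) (sx (sgm p + sgm p₀))) ↔ pat l = true)
    rw [a0]
  have h5 : (((Fintype.piFinset C).card : ℕ) : ℝ) = ∏ j, ((C j).card : ℝ) := by
    rw [Fintype.card_piFinset]
    push_cast
    rfl
  rw [h4, h5]
  have hQc : (univ.filter Q).card =
      (univ.filter fun σ : ps ι → ZMod 2 =>
        ∀ l, (Gv (pt (nG s f v₀ (Ws s S₀) p₀ l) (sx σ)) ↔ pat l = true)).card := by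
    refine card_bij (fun σ _ => σ + sgm p₀) ?_ ?_ ?_
    · intro σ hσ
      rw [mem_filter] at hσ ⊢
      exact ⟨mem_univ _, hσ.2⟩
    · intro σ _ σ' _ h
      exact add_right_cancel h
    · intro σ hσ
      refine ⟨σ - sgm p₀, ?_, sub_add_cancel _ _⟩
      rw [mem_filter] at hσ ⊢
      refine ⟨mem_univ _, ?_⟩
      simp only [hQ, sub_add_cancel]
      exact hσ.2
  have h2' : |((univ.filter Q).card : ℝ) / 2 ^ (ps ι).card - amR pat| ≤ ε := by
    rw [hQc]
    exact h2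
  set n : ℝ := (((Fintype.piFinset C).filter fun p =>
        Q fun e => nr (p e.1.1) (p e.1.2)).card : ℝ) with hn
  set q : ℝ := ((univ.filter Q).card : ℝ) / 2 ^ (ps ι).card with hq
  set P : ℝ := ∏ j, ((C j).card : ℝ) with hP
  have hP0 : 0 ≤ P := Finset.prod_nonneg fun j _ => by positivity
  have h6 : |n - amR pat * P| ≤ |n - q * P| + |q - amR pat| * P := by
    have h7 : n - amR pat * P = (n - q * P) + (q - amR pat) * P := by ring
    have h8 : |(q - amR pat) * P| = |q - amR pat| * P := by rw [abs_mul, abs_of_nonneg hP0]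
    rw [h7, ← h8]
    exact abs_add_le _ _
  have h7 : |q - amR pat| * P ≤ ε * P := mul_le_mul_of_nonneg_right h2' hP0
  have h8 : |n - q * P| ≤ R := by convert h3
  linarith

end

/-- **BOXG**: the joint law in a box. -/
theorem t_BOXG : S_LAT → S_EQ7 → S_BOXG := by
  intro hLAT hEQ7 t n ε hε
  obtain ⟨M, V, hMV⟩ := hLAT t n ε hε
  refine ⟨M, V, ?_⟩
  intro s f ι _ _ τ τ₂ C X κ S₀ x JR pat hts htr hfl hκ hCX hHB hne hS₀ hW hdis hC hCd hpar hpar2
    h3 hJ hty hsep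
  obtain ⟨v₀, hv⟩ := hne
  have hv2 : v₀ ≠ 2 := (hS₀ v₀ hv).2
  set R : ℝ := 2 ^ (ps ι).card * (κ * ∏ j, (X j : ℝ)) with hR
  have hR0 : 0 ≤ R := mul_nonneg (by positivity)
    (mul_nonneg hκ (Finset.prod_nonneg fun j _ => by positivity))
  have hWs : ∀ l, ∀ v ∈ Ws s S₀ l, Po v := by
    intro l v hv
    rcases mem_union.1 hv with h | h
    · exact hS₀ v h
    · exact hW l v h
  have h2S : ∀ l, 2 ∉ Ws s S₀ l := fun l hh => (hWs l 2 hh).2 rfl
  have hv' : ∀ l, v₀ ∈ Ws s S₀ l := fun l => mem_union_left _ hv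
  have hT : ∀ p ∈ Fintype.piFinset C, TQ (Ws s S₀) τ p := by
    intro p hp
    rw [Fintype.mem_piFinset] at hp
    refine ⟨fun i j hij => ?_, fun i => (hC i _ (hp i)).1, fun l i h => ?_,
      fun i => (hC i _ (hp i)).2.2.2.1⟩
    · by_contra hne
      have h1 := Finset.disjoint_left.1 (hCd i j hne) (hp i)
      rw [hij] at h1
      exact h1 (hp j)
    · rcases mem_union.1 h with h | h
      · exact (hC i _ (hp i)).2.1 h
      · exact (hC i _ (hp i)).2.2.1 l h
  have hsum : ∀ p ∈ Fintype.piFinset C, ∀ l, f l = true →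
      ∑ v ∈ S₀ ∪ (s l).W, nr v 2 + ∑ i, nr (p i) 2 = 0 := by
    intro p hp l hf
    rw [Fintype.mem_piFinset] at hp
    rw [sum_congr rfl fun i _ => (hC i _ (hp i)).2.2.2.2]
    exact hpar2 l hf
  -- the part with given labels
  have h1 : ∀ β : ι → LbJ (Ws s S₀), (∀ l, LN (Ws s S₀ l) τ (fun i => β i l)) →
      |(((Fintype.piFinset C).filter fun p => (fun i => lbj (Ws s S₀) (p i)) = β ∧
          PatG s f pat (S₀ ∪ univ.image p)).card : ℝ) -
        amR pat * (((Fintype.piFinset C).filter fun p =>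
          (fun i => lbj (Ws s S₀) (p i)) = β).card : ℝ)| ≤
      ε * (((Fintype.piFinset C).filter fun p =>
        (fun i => lbj (Ws s S₀) (p i)) = β).card : ℝ) + R := by
    intro β hβ
    set C' : ι → Finset ℕ := fun i => (C i).filter fun q => lbj (Ws s S₀) q = β i with hC'
    have hpi : (Fintype.piFinset C).filter (fun p => (fun i => lbj (Ws s S₀) (p i)) = β) =
        Fintype.piFinset C' := by
      ext p
      simp only [Finset.mem_filter, Fintype.mem_piFinset, hC']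
      constructor
      · rintro ⟨h2, h3⟩ i
        exact ⟨h2 i, congrFun h3 i⟩
      · intro h2
        exact ⟨fun i => (h2 i).1, funext fun i => (h2 i).2⟩
    have hsub : ∀ p ∈ Fintype.piFinset C', p ∈ Fintype.piFinset C := by
      intro p hp
      rw [Fintype.mem_piFinset] at hp ⊢
      exact fun i => (mem_filter.1 (hp i)).1
    have hlab : ∀ p ∈ Fintype.piFinset C', ∀ i, lbj (Ws s S₀) (p i) = β i := by
      intro p hp i
      rw [Fintype.mem_piFinset] at hp
      exact (mem_filter.1 (hp i)).2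
    rw [← Finset.filter_filter, hpi]
    refine labG (v₀ := v₀) (β := β) hEQ7 hfl hv hS₀ hW hκ
      (fun i => (Finset.card_le_card (Finset.filter_subset _ _)).trans (hCX i))
      (HB_sub hHB fun i q => lbj (Ws s S₀) q = β i) (fun p hp => hT p (hsub p hp))
      (fun p hp => hsum p (hsub p hp)) hlab ?_
    intro p hp
    have hp' := hsub p hp
    refine hMV (UW s (Ws s S₀)) ι (wR s (Ws s S₀) p) (uR s (Ws s S₀) p)
      (nG s f v₀ (Ws s S₀) p) x JR
      (HL_G hfl hv' hv2 (hT p hp') (HL_tuple hWs hts htr hpar (hT p hp') ?_))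
      (HT_G hfl hv hW x JR hS₀ hdis h3 hJ hsep (hT p hp') ?_) pat
    · intro l
      have h6 : (fun i => lb (Ws s S₀ l) (p i)) = fun i => β i l := by
        funext i
        exact congrFun (hlab p hp i) l
      rw [h6]
      exact hβ l
    · intro r i hi
      refine ⟨(hty r i hi).1, fun l => (hty r i hi).2 (p i) ?_ l⟩
      rw [Fintype.mem_piFinset] at hp'
      exact hp' i
  -- sum over the labels
  set LL := univ.filter (fun β : ι → LbJ (Ws s S₀) =>
    ∀ l, LN (Ws s S₀ l) τ (fun i => β i l)) with hLL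
  have hfib : ∀ T : (ι → ℕ) → Prop,
      (((Fintype.piFinset C).filter fun p => NdR s S₀ (univ.image p) ∧ T p).card : ℝ) =
      ∑ β ∈ LL, (((Fintype.piFinset C).filter fun p =>
        (fun i => lbj (Ws s S₀) (p i)) = β ∧ T p).card : ℝ) := by
    intro T
    rw [Finset.card_eq_sum_card_fiberwise (f := fun (p : ι → ℕ) (i : ι) => lbj (Ws s S₀) (p i))
      (t := LL) (by
        intro p hp
        rw [Finset.mem_coe, Finset.mem_filter] at hp
        rw [Finset.mem_coe, hLL, Finset.mem_filter]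
        exact ⟨Finset.mem_univ _, (ndR_iff (hT p hp.1).ty).1 hp.2.1⟩)]
    push_cast
    refine Finset.sum_congr rfl fun β hβ => ?_
    rw [hLL, Finset.mem_filter] at hβ
    congr 2
    ext p
    simp only [Finset.mem_filter]
    constructor
    · rintro ⟨⟨h3, h4, h4'⟩, h5⟩
      exact ⟨h3, h5, h4'⟩
    · rintro ⟨h3, h4, h5⟩
      refine ⟨⟨h3, ?_, h5⟩, h4⟩
      rw [ndR_iff (hT p h3).ty]
      intro l
      have h6 : (fun i => lbj (Ws s S₀) (p i) l) = fun i => β i l := by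
        funext i
        exact congrFun (congrFun h4 i) l
      rw [h6]
      exact hβ.2 l
  have hf1 := hfib fun p => PatG s f pat (S₀ ∪ univ.image p)
  have hf2 := hfib fun _ => True
  simp only [and_true] at hf2
  rw [hf1, hf2, Finset.mul_sum, ← Finset.sum_sub_distrib]
  refine (Finset.abs_sum_le_sum_abs _ _).trans ?_
  refine (Finset.sum_le_sum fun β hβ => h1 β (Finset.mem_filter.1 hβ).2).trans ?_
  rw [Finset.sum_add_distrib, ← Finset.mul_sum, Finset.sum_const, nsmul_eq_mul]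
  have h5 : ((LL.card : ℕ) : ℝ) ≤
      2 ^ ((∑ l, (2 * (S₀ ∪ (s l).W).card + 1)) * Fintype.card ι) := by
    have h6 : LL.card ≤ Fintype.card (ι → LbJ (Ws s S₀)) := Finset.card_le_univ _
    rw [Fintype.card_fun, card_LbJ _ h2S, ← pow_mul] at h6
    exact_mod_cast h6
  have h6 := mul_le_mul_of_nonneg_right h5 hR0
  have h7 : (2 : ℝ) ^ ((∑ l, (2 * (S₀ ∪ (s l).W).card + 1)) * Fintype.card ι +
      (ps ι).card) * (κ * ∏ j, (X j : ℝ)) =
      2 ^ ((∑ l, (2 * (S₀ ∪ (s l).W).card + 1)) * Fintype.card ι) * R := by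
    rw [hR, pow_add]
    ring
  rw [h7]
  linarith

end Pool.Agent.L0h84.JS
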